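import Pool.Agent.Helper40.Nm.Goals

/-! Composites of field extensions. -/

open Polynomial

namespace Pool.Agent.Helper11.Nm

open Pool.Agent.Helper40.Nm

theorem cmpf : CMPF := by
  intro K L M _ _ _ _ _ _ _ _ _
  obtain ⟨T, hT₁, hT₂⟩ := IsGalois.is_separable_splitting_field K L
  let T' : M[X] := T.map (algebraMap K M)
  let E : Type := T'.SplittingField
  letI : Field E := inferInstanceAs (Field T'.SplittingField)
  letI : Algebra M E := inferInstanceAs (Algebra M T'.SplittingField)
  letI : Algebra K E := inferInstanceAs (Algebra K T'.SplittingField)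
  haveI : IsScalarTower K M E := inferInstanceAs (IsScalarTower K M T'.SplittingField)
  haveI : T'.IsSplittingField M E := inferInstanceAs (T'.IsSplittingField M T'.SplittingField)
  have hs : (T.map (algebraMap K E)).Splits := by
    have h : (T'.map (algebraMap M E)).Splits := IsSplittingField.splits E T'
    rwa [Polynomial.map_map, ← IsScalarTower.algebraMap_eq] at h
  let j : L →ₐ[K] E := IsSplittingField.lift L T hs
  letI : Algebra L E := j.toRingHom.toAlgebra
  haveI hKL : IsScalarTower K L E :=
    IsScalarTower.of_algebraMap_eq' (by ext x; exact (j.commutes x).symm)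
  haveI hfd : FiniteDimensional M E := IsSplittingField.finiteDimensional E T'
  haveI hgal : IsGalois M E := IsGalois.of_separable_splitting_field (p := T') hT₁.map
  refine ⟨E, inferInstance, inferInstance, inferInstance, inferInstance, hKL, inferInstance,
    hfd, hgal, ?_⟩
  have h1 := (isSplittingField_iff_intermediateField.1
    (inferInstance : T'.IsSplittingField M E)).2
  rw [eq_top_iff, ← h1]
  apply IntermediateField.adjoin.mono
  intro x hx
  have hx' : x ∈ T.rootSet E := by
    have h' : T'.rootSet E = T.rootSet E := by
      simp [Set.ext_iff, Polynomial.mem_rootSet', T']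
    rwa [h'] at hx
  have h2 : (T.rootSet E) = (IsScalarTower.toAlgHom K L E) '' (T.rootSet L) := by
    have := (isSplittingField_iff_intermediateField.1 hT₂).1
    exact (this.image_rootSet (IsScalarTower.toAlgHom K L E)).symm
  rw [h2] at hx'
  obtain ⟨y, _, hy⟩ := hx'
  exact ⟨y, hy⟩

end Pool.Agent.Helper11.Nm
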